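import Pool.Agent.H.MP_70d5b9_an.B

set_option autoImplicit false
open Filter Topology Metric Set Complex
open Pool.Agent.H.MP_70d5b9_an

namespace Pool.Agent.H.MP_196b75_an

noncomputable def EE (c : ℂ) (k : ℕ) (z : ℂ) : ℂ := exp (-(c + k) * log (1 + z))

theorem EE_der (c : ℂ) (k : ℕ) {z : ℂ} (hz : z ∈ ball (0 : ℂ) 1) :
    HasDerivAt (EE c k) (-(c + k) * EE c (k + 1) z) z := by
  have p := KK_re (ball_KK hz)
  have n : 1 + z ≠ 0 := fun e => by simp [e] at p
  refine ((((hasDerivAt_id z).const_add 1).clog (Or.inl p)).const_mul _).cexp.congr_deriv ?_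
  rw [EE, show -(c + (k + 1 : ℕ)) * log (1 + z) = -(c + k) * log (1 + z) - log (1 + z) by
    push_cast
    ring, exp_sub, exp_log n]
  simp only [id]
  ring

theorem iter (c : ℂ) (n : ℕ) : ∀ z ∈ ball (0 : ℂ) 1,
    iteratedDeriv (n + 1) (fun z => z * EE c 0 z) z =
      z * ((∏ j ∈ Finset.range (n + 1), -(c + j)) * EE c (n + 1) z) +
        (n + 1) * ((∏ j ∈ Finset.range n, -(c + j)) * EE c n z) := by
  induction n with
  | zero =>
    intro z hz
    rw [zero_add, iteratedDeriv_one, ((hasDerivAt_id' z).fun_mul (EE_der c 0 hz)).deriv]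
    simp [add_comm]
  | succ n ih =>
    intro z hz
    rw [iteratedDeriv_succ, Filter.EventuallyEq.deriv_eq ((isOpen_ball.eventually_mem hz).mono ih),
      (((hasDerivAt_id' z).fun_mul ((EE_der c (n + 1) hz).const_mul _)).fun_add
        (((EE_der c n hz).const_mul _).const_mul _)).deriv]
    simp only [Finset.prod_range_succ]
    push_cast
    ring

theorem bound {z : ℂ} (hz : z ∈ ball (0 : ℂ) 1) :
    ‖2 + 6 * z - 3 * z ^ 2‖ + ‖6 + 12 * z - 5 * z ^ 2‖ ≤ 24.09 := by
  obtain ⟨a, a1, a2⟩ := exists_norm_eq_mul_self (2 + 6 * z - 3 * z ^ 2)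
  obtain ⟨b, b1, b2⟩ := exists_norm_eq_mul_self (6 + 12 * z - 5 * z ^ 2)
  have := norm_le_of_forall_mem_frontier_norm_le (U := ball 0 1) isBounded_ball
    (f := fun w => a * (2 + 6 * w - 3 * w ^ 2) + b * (6 + 12 * w - 5 * w ^ 2))
    (Differentiable.diffContOnCl (by fun_prop)) (C := 24.09) (fun w hw => ?_) (subset_closure hz)
  · rwa [← a2, ← b2, ← ofReal_add, norm_real, Real.norm_of_nonneg (by positivity)] at this
  have w1 : ‖w‖ = 1 := by simpa using frontier_ball_subset_sphere hw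
  have w2 : w.im * w.im = 1 - w.re * w.re := by
    have := Complex.sq_norm w
    rw [w1, normSq_apply] at this
    linarith
  refine (norm_add_le _ _).trans ?_
  rw [norm_mul, norm_mul, a1, b1, one_mul, one_mul]
  have h1 : ‖2 + 6 * w - 3 * w ^ 2‖ ^ 2 = 61 - 12 * w.re - 24 * w.re ^ 2 := by
    rw [Complex.sq_norm, normSq_apply]
    simp [sq]
    linear_combination (48 - 36 * w.re + 9 + 9 * w.re ^ 2 + 9 * w.im ^ 2) * w2
  have h2 : ‖6 + 12 * w - 5 * w ^ 2‖ ^ 2 = 265 + 24 * w.re - 120 * w.re ^ 2 := by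
    rw [Complex.sq_norm, normSq_apply]
    simp [sq]
    linear_combination (204 - 120 * w.re + 25 + 25 * w.re ^ 2 + 25 * w.im ^ 2) * w2
  refine (sq_le_sq₀ (by positivity) (by norm_num)).mp ?_
  nlinarith [sq_nonneg (12 * ‖6 + 12 * w - 5 * w ^ 2‖ - 25 * ‖2 + 6 * w - 3 * w ^ 2‖),
    sq_nonneg (w.re + 3 / 1000)]

theorem cc : 2 * Real.cos (Real.arctan (-1 / 50)) * ee (Real.arctan (-1 / 50)) =
    5000 / 2501 - 100 / 2501 * I := by
  have h1 := Real.cos_sq_arctan (-1 / 50)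
  have h2 := Real.tan_mul_cos (Real.cos_arctan_pos (-1 / 50)).ne'
  rw [Real.tan_arctan] at h2
  rw [ee_eq, ← h2]
  have := congrArg ofReal h1
  push_cast [-ofReal_cos] at this ⊢
  linear_combination (2 - I / 25) * this

end Pool.Agent.H.MP_196b75_an
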